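import Mathlib

open Topology Filter Set MeasureTheory

namespace Pool.Agent.Results.MP_4e92f2_gt.NotMinimalUS

/-- The set `A = {-∞, 0, +∞}`. -/
def A : Set EReal := {⊥, 0, ⊤}

/-- Identify the three points of `A`. -/
def glue : Setoid EReal where
  r x y := x = y ∨ (x ∈ A ∧ y ∈ A)
  iseqv := by
    refine ⟨fun x => Or.inl rfl, ?_, ?_⟩
    · rintro x y (h | h)
      · exact Or.inl h.symm
      · exact Or.inr ⟨h.2, h.1⟩
    · rintro x y z (rfl | h) (rfl | h')
      · exact Or.inl rfl
      · exact Or.inr h'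
      · exact Or.inr h
      · exact Or.inr ⟨h.1, h'.2⟩

/-- The collapsed extended line. -/
def X₀ : Type := Quotient glue

/-- The projection. -/
def q (x : EReal) : X₀ := Quotient.mk glue x

/-- The collapsed point. -/
noncomputable def star : X₀ := q 0

theorem q_eq (x y : EReal) : q x = q y ↔ (x = y ∨ (x ∈ A ∧ y ∈ A)) := by
  constructor
  · intro h
    exact Quotient.exact h
  · intro h
    exact Quotient.sound (s := glue) h

theorem q_surj : Function.Surjective q := fun x => ⟨x.out, Quotient.out_eq x⟩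

theorem zero_mem : (0 : EReal) ∈ A := by simp [A]

theorem q_eq_star (x : EReal) : q x = star ↔ x ∈ A := by
  unfold star
  rw [q_eq]
  constructor
  · rintro (rfl | h)
    · exact zero_mem
    · exact h.1
  · intro h
    exact Or.inr ⟨h, zero_mem⟩

theorem A_finite : A.Finite := by
  unfold A
  exact Set.toFinite _

/-- The topology `τ` of the problem: `U` is open when `q⁻¹(U)` is open and, in case the collapsed
point lies in `U`, also dense. -/
@[reducible] def tau : TopologicalSpace X₀ where
  IsOpen U := IsOpen (q ⁻¹' U) ∧ (star ∈ U → Dense (q ⁻¹' U))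
  isOpen_univ := ⟨isOpen_univ, fun _ => dense_univ⟩
  isOpen_inter := by
    rintro s t ⟨h1, h2⟩ ⟨h3, h4⟩
    refine ⟨h1.inter h3, fun h => ?_⟩
    exact (h2 h.1).inter_of_isOpen_left (h4 h.2) h1
  isOpen_sUnion := by
    intro S hS
    constructor
    · rw [Set.preimage_sUnion]
      exact isOpen_biUnion fun t ht => (hS t ht).1
    · rintro ⟨t, ht, hst⟩
      exact ((hS t ht).2 hst).mono (Set.preimage_mono (Set.subset_sUnion_of_mem ht))

/-- The coarser topology: `U` is open when `q⁻¹(U)` is open and, in case the collapsed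
point lies in `U`, has countable complement. -/
@[reducible] def tau' : TopologicalSpace X₀ where
  IsOpen U := IsOpen (q ⁻¹' U) ∧ (star ∈ U → (q ⁻¹' U)ᶜ.Countable)
  isOpen_univ := ⟨isOpen_univ, fun _ => by simp⟩
  isOpen_inter := by
    rintro s t ⟨h1, h2⟩ ⟨h3, h4⟩
    refine ⟨h1.inter h3, fun h => ?_⟩
    rw [Set.preimage_inter, Set.compl_inter]
    exact (h2 h.1).union (h4 h.2)
  isOpen_sUnion := by
    intro S hS
    constructor
    · rw [Set.preimage_sUnion]
      exact isOpen_biUnion fun t ht => (hS t ht).1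
    · rintro ⟨t, ht, hst⟩
      exact ((hS t ht).2 hst).mono (Set.compl_subset_compl.mpr
        (Set.preimage_mono (Set.subset_sUnion_of_mem ht)))

/-- Uniquely sequential: every convergent sequence has exactly one limit. -/
def US {X : Type} (t : TopologicalSpace X) : Prop :=
  ∀ (x : ℕ → X) (a b : X), Tendsto x atTop (@nhds X t a) → Tendsto x atTop (@nhds X t b) → a = b

theorem dense_compl {C : Set EReal} (hC : C.Countable) : Dense Cᶜ := by
  apply dense_of_exists_between
  intro a b hab
  obtain ⟨r, hr1, hr2⟩ := EReal.lt_iff_exists_real_btwn.mp hab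
  obtain ⟨s, hs1, hs2⟩ := EReal.lt_iff_exists_real_btwn.mp hr2
  have hrs : r < s := by exact_mod_cast hs1
  by_contra hc
  push Not at hc
  have hsub : Set.Ioo r s ⊆ (fun x : ℝ => (x : EReal)) ⁻¹' C := by
    intro x hx
    by_contra hxC
    have e1 : a < (x : EReal) := hr1.trans (EReal.coe_lt_coe_iff.mpr hx.1)
    have e2 : (x : EReal) < b := lt_trans (EReal.coe_lt_coe_iff.mpr hx.2) hs2
    exact hc x hxC ⟨e1, e2⟩
  have : (Set.Ioo r s).Countable :=
    (hC.preimage_of_injOn (EReal.coe_injective.injOn)).mono hsub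
  exact absurd this (by
    rw [← Cardinal.le_aleph0_iff_set_countable, Cardinal.mk_Ioo_real hrs, not_le]
    exact Cardinal.aleph0_lt_continuum)

theorem tau'_le : ∀ U : Set X₀, IsOpen[tau'] U → IsOpen[tau] U := by
  rintro U ⟨h1, h2⟩
  refine ⟨h1, fun h => ?_⟩
  have := dense_compl (h2 h)
  rwa [compl_compl] at this

/-- A closed set of reals of positive measure with no rational member. -/
theorem exists_fat : ∃ K : Set ℝ, IsCompact K ∧ K ⊆ Set.Icc 1 3 ∧ ¬ K.Countable ∧
    ∀ r : ℚ, (r : ℝ) ∉ K := by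
  have h0 : volume (Set.range (fun r : ℚ => (r : ℝ))) < 1 := by
    rw [(Set.countable_range _).measure_zero]
    exact one_pos
  obtain ⟨U, hU1, hU2, hU3⟩ := Set.exists_isOpen_lt_of_lt _ _ h0
  refine ⟨Set.Icc 1 3 \ U, isCompact_Icc.diff hU2, Set.sdiff_subset, ?_, ?_⟩
  · intro hc
    have h1 := hc.measure_zero volume
    have h2 : volume (Set.Icc (1 : ℝ) 3) ≤ volume (Set.Icc (1 : ℝ) 3 \ U) + volume U :=
      (measure_mono (by
        intro x hx
        by_cases h : x ∈ U
        · exact Or.inr h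
        · exact Or.inl ⟨hx, h⟩)).trans (measure_union_le _ _)
    rw [h1, zero_add, Real.volume_Icc] at h2
    have h3 := h2.trans_lt hU3
    have h4 : (1 : ENNReal) ≤ ENNReal.ofReal (3 - 1) := by
      rw [← ENNReal.ofReal_one]
      exact ENNReal.ofReal_le_ofReal (by norm_num)
    exact absurd h3 (not_lt.mpr h4)
  · intro r hr
    exact hr.2 (hU1 ⟨r, rfl⟩)

theorem ne_tau : tau' ≠ tau := by
  intro heq
  obtain ⟨K, hK1, hK2, hK3, hK4⟩ := exists_fat
  set K' : Set EReal := (fun x : ℝ => (x : EReal)) '' K with hK'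
  have hclosed : IsClosed K' := (hK1.image continuous_coe_real_ereal).isClosed
  have hA : ∀ x ∈ A, x ∉ K' := by
    rintro x hx ⟨y, hy, rfl⟩
    have hy1 := (hK2 hy).1
    simp only [A, Set.mem_insert_iff, Set.mem_singleton_iff] at hx
    rcases hx with h | h | h
    · exact EReal.coe_ne_bot _ h
    · have : y = 0 := by exact_mod_cast h
      linarith
    · exact EReal.coe_ne_top _ h
  set V : Set X₀ := {x | ∀ y, q y = x → y ∉ K'} with hV
  have hpre : q ⁻¹' V = K'ᶜ := by
    ext y
    constructor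
    · intro h
      exact h y rfl
    · intro h z hz hzK
      rcases (q_eq z y).mp hz with rfl | h'
      · exact h hzK
      · exact hA z h'.1 hzK
  have hopen : IsOpen[tau] V := by
    refine ⟨by rw [hpre]; exact hclosed.isOpen_compl, fun _ => ?_⟩
    rw [hpre]
    apply dense_of_exists_between
    intro a b hab
    obtain ⟨r, hr1, hr2⟩ := EReal.lt_iff_exists_rat_btwn.mp hab
    refine ⟨((r : ℝ) : EReal), ?_, hr1, hr2⟩
    rintro ⟨y, hy, hyr⟩
    have : y = (r : ℝ) := EReal.coe_injective hyr
    exact hK4 r (this ▸ hy)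
  have hopen' : IsOpen[tau'] V := by rw [heq]; exact hopen
  have hstar : star ∈ V := by
    intro y hy
    exact hA y ((q_eq_star y).mp hy)
  have h5 := hopen'.2 hstar
  rw [hpre, compl_compl] at h5
  exact hK3 ((h5.preimage_of_injOn (f := fun x : ℝ => (x : EReal))
    EReal.coe_injective.injOn).mono (Set.subset_preimage_image _ _))

theorem fibre_finite (x : X₀) : (q ⁻¹' {x}).Finite := by
  obtain ⟨y, rfl⟩ := q_surj x
  refine (A_finite.union (Set.finite_singleton y)).subset ?_
  intro z hz
  rcases (q_eq z y).mp hz with rfl | h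
  · exact Or.inr rfl
  · exact Or.inl h.1

theorem t1 : @T1Space X₀ tau' := by
  let inst := tau'
  constructor
  intro x
  refine ⟨⟨?_, fun _ => ?_⟩⟩
  · rw [Set.preimage_compl]
    exact (fibre_finite x).isClosed.isOpen_compl
  · rw [Set.preimage_compl, compl_compl]
    exact (fibre_finite x).countable

theorem lift_tendsto (x : ℕ → X₀) (y : EReal) (hy : y ∉ A)
    (h : Tendsto x atTop (@nhds X₀ tau' (q y))) :
    Tendsto (fun n => (x n).out) atTop (𝓝 y) := by
  let inst := tau'
  rw [tendsto_nhds]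
  intro W hW hyW
  have hWA : IsOpen (W \ A) := hW.sdiff A_finite.isClosed
  have hpre : q ⁻¹' (q '' (W \ A)) = W \ A := by
    ext z
    constructor
    · rintro ⟨w, hw, hwz⟩
      rcases (q_eq w z).mp hwz with rfl | h'
      · exact hw
      · exact absurd h'.1 hw.2
    · intro hz
      exact ⟨z, hz, rfl⟩
  have hopen : IsOpen (q '' (W \ A)) := by
    refine ⟨by rw [hpre]; exact hWA, ?_⟩
    rintro ⟨w, hw, hws⟩
    exact absurd ((q_eq_star w).mp hws) hw.2
  have hmem : q y ∈ q '' (W \ A) := ⟨y, ⟨hyW, hy⟩, rfl⟩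
  have h1 := (tendsto_nhds.mp h) _ hopen hmem
  filter_upwards [h1] with n hn
  have : (x n).out ∈ q ⁻¹' (q '' (W \ A)) := by
    have e3 : q ((x n).out) = x n := Quotient.out_eq (x n)
    rw [Set.mem_preimage, e3]
    exact hn
  rw [hpre] at this
  exact this.1

theorem no_star (x : ℕ → X₀) (y : EReal) (hy : y ∉ A)
    (h : Tendsto x atTop (@nhds X₀ tau' (q y))) :
    ¬ Tendsto x atTop (@nhds X₀ tau' star) := by
  let inst := tau'
  intro hs
  have hz := lift_tendsto x y hy h
  -- eventually the representatives avoid `A`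
  have h1 : ∀ᶠ n in atTop, (x n).out ∈ Aᶜ :=
    hz.eventually (A_finite.isClosed.isOpen_compl.mem_nhds hy)
  obtain ⟨N, hN⟩ := eventually_atTop.mp h1
  set z : ℕ → EReal := fun n => (x (n + N)).out with hzdef
  have hz' : Tendsto z atTop (𝓝 y) := hz.comp (tendsto_add_atTop_nat N)
  have hC : IsCompact (insert y (Set.range z)) := hz'.isCompact_insert_range
  have hCA : ∀ w ∈ insert y (Set.range z), w ∉ A := by
    rintro w (rfl | ⟨n, rfl⟩)
    · exact hy
    · exact hN (n + N) (Nat.le_add_left _ _)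
  set V : Set X₀ := (q '' (insert y (Set.range z)))ᶜ with hV
  have hpre : q ⁻¹' V = (insert y (Set.range z))ᶜ := by
    ext w
    constructor
    · intro hw hwC
      exact hw ⟨w, hwC, rfl⟩
    · rintro hw ⟨v, hv, hvw⟩
      rcases (q_eq v w).mp hvw with rfl | h'
      · exact hw hv
      · exact hCA v hv h'.1
  have hopen : IsOpen V := by
    refine ⟨by rw [hpre]; exact hC.isClosed.isOpen_compl, fun _ => ?_⟩
    rw [hpre, compl_compl]
    exact (Set.countable_range z).insert y
  have hstar : star ∈ V := by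
    rintro ⟨v, hv, hvs⟩
    exact hCA v hv ((q_eq_star v).mp hvs)
  have h2 := (tendsto_nhds.mp hs) V hopen hstar
  obtain ⟨n, hn1, hn2⟩ := (Filter.inter_mem h2 (Ici_mem_atTop N)) |> Filter.nonempty_of_mem
  apply hn1
  obtain ⟨m, rfl⟩ : ∃ m, n = m + N := ⟨n - N, (Nat.sub_add_cancel hn2).symm⟩
  exact ⟨z m, Or.inr ⟨m, rfl⟩, Quotient.out_eq (x (m + N))⟩

theorem us : US tau' := by
  intro x a b ha hb
  obtain ⟨y, rfl⟩ := q_surj a
  obtain ⟨w, rfl⟩ := q_surj b
  by_cases hy : y ∈ A
  · by_cases hw : w ∈ A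
    · exact (q_eq y w).mpr (Or.inr ⟨hy, hw⟩)
    · rw [(q_eq_star y).mpr hy] at ha
      exact absurd ha (no_star x w hw hb)
  · by_cases hw : w ∈ A
    · rw [(q_eq_star w).mpr hw] at hb
      exact absurd hb (no_star x y hy ha)
    · have := tendsto_nhds_unique (lift_tendsto x y hy ha) (lift_tendsto x w hw hb)
      rw [this]

/-- The topology `τ` on the collapsed extended line is not a minimal US topology: there is a
strictly coarser topology which is `T₁` and US. -/
theorem result : ∃ t : TopologicalSpace X₀,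
    (∀ U : Set X₀, IsOpen[t] U → IsOpen[tau] U) ∧ t ≠ tau ∧ @T1Space X₀ t ∧ US t :=
  ⟨tau', tau'_le, ne_tau, t1, us⟩

end Pool.Agent.Results.MP_4e92f2_gt.NotMinimalUS
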